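import Mathlib

set_option autoImplicit false
open MeasureTheory Filter Topology Polynomial Real

namespace Pool.Agent.Results.MP_6d4084_an.BombieriSharp

lemma log_le_log_max {x : ℝ} (hx : 0 ≤ x) : log x ≤ log (max x 1) := by
  rcases hx.eq_or_lt with rfl | h
  · simp
  · exact log_le_log h (le_max_left _ _)

lemma cont_logmax {X : Type*} [TopologicalSpace X] {f g : X → ℝ} (hf : Continuous f) (hg : Continuous g)
    (hpos : ∀ x, 0 < g x) : Continuous (fun x => log (max (f x) (g x))) := by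
  apply Continuous.log (hf.max hg)
  intro x
  exact (lt_of_lt_of_le (hpos x) (le_max_right _ _)).ne'

lemma P1 (a b : ℂ) : 2 * π * log (max ‖b‖ ‖a‖) ≤
    ∫ θ in (0:ℝ)..(2 * π), log (max ‖b + circleMap 0 1 θ * a‖ 1) := by
  by_cases ha : a = 0
  · subst ha
    simp only [norm_zero, mul_zero, add_zero]
    rw [intervalIntegral.integral_const, max_eq_left (norm_nonneg b)]
    simp only [sub_zero, smul_eq_mul]
    exact mul_le_mul_of_nonneg_left (log_le_log_max (norm_nonneg b)) (by positivity)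
  · have h := mahlerMeasure_C_mul_X_add_C ha b
    have hne : (C a * X + C b : ℂ[X]) ≠ 0 := by
      intro h0
      rw [h0] at h
      simp only [mahlerMeasure_zero] at h
      have : 0 < max ‖a‖ ‖b‖ := lt_of_lt_of_le (norm_pos_iff.2 ha) (le_max_left _ _)
      linarith
    rw [mahlerMeasure_def_of_ne_zero hne] at h
    have h2 := congrArg log h
    rw [log_exp] at h2
    have h3 : 2 * π * log (max ‖b‖ ‖a‖) = ∫ (x : ℝ) in (0)..(2 * π), log ‖eval (circleMap 0 1 x) (C a * X + C b)‖ := by
      rw [max_comm, ← h2]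
      field_simp
    rw [h3]
    apply intervalIntegral.integral_mono_on (by positivity)
    · exact intervalIntegrable_mahlerMeasure _
    · apply Continuous.intervalIntegrable
      apply cont_logmax _ continuous_const (fun _ => one_pos)
      have := continuous_circleMap 0 1
      fun_prop
    · intro x _
      have : eval (circleMap 0 1 x) (C a * X + C b) = b + circleMap 0 1 x * a := by
        simp; ring
      rw [this]
      exact log_le_log_max (norm_nonneg _)

lemma P2 (a b : ℂ) {c : ℝ} (hc : 0 < c) : 2 * π * log (max (max ‖b‖ ‖a‖) c) ≤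
    ∫ θ in (0:ℝ)..(2 * π), log (max ‖b + circleMap 0 1 θ * a‖ c) := by
  have hcont : Continuous (fun θ : ℝ => ‖b + circleMap 0 1 θ * a‖) := by
    have := continuous_circleMap 0 1
    fun_prop
  rcases le_or_gt (max ‖b‖ ‖a‖) c with h | h
  · rw [max_eq_right h]
    have : 2 * π * log c = ∫ θ in (0:ℝ)..(2 * π), log c := by
      rw [intervalIntegral.integral_const]; simp
    rw [this]
    apply intervalIntegral.integral_mono_on (by positivity)
    · exact continuous_const.intervalIntegrable _ _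
    · exact (cont_logmax hcont continuous_const (fun _ => hc)).intervalIntegrable _ _
    · intro x _
      exact log_le_log hc (le_max_right _ _)
  · rw [max_eq_left h.le]
    have hP := P1 (a / c) (b / c)
    have hm : max ‖b / (c:ℂ)‖ ‖a / (c:ℂ)‖ = max ‖b‖ ‖a‖ / c := by
      rw [norm_div, norm_div, Complex.norm_real, Real.norm_of_nonneg hc.le]
      exact (max_div_div_right hc.le _ _)
    rw [hm, log_div (hc.trans h).ne' hc.ne'] at hP
    have hpt : ∀ x : ℝ, log (max ‖b + circleMap 0 1 x * a‖ c) =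
        log c + log (max ‖b / (c:ℂ) + circleMap 0 1 x * (a / (c:ℂ))‖ 1) := by
      intro x
      have e1 : b / (c:ℂ) + circleMap 0 1 x * (a / (c:ℂ)) = (b + circleMap 0 1 x * a) / (c:ℂ) := by
        ring
      rw [e1, norm_div, Complex.norm_real, Real.norm_of_nonneg hc.le,
        ← log_mul hc.ne' (lt_of_lt_of_le one_pos (le_max_right _ _)).ne']
      congr 1
      rw [mul_max_of_nonneg _ _ hc.le]
      congr 1
      · field_simp
      · ring
    simp_rw [hpt]
    rw [intervalIntegral.integral_add (continuous_const.intervalIntegrable _ _)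
      ((cont_logmax (by have := continuous_circleMap 0 1; fun_prop) continuous_const
        (fun _ => one_pos)).intervalIntegrable _ _), intervalIntegral.integral_const]
    simp only [sub_zero, smul_eq_mul]
    linarith

/-- the averaging step. -/
lemma step {b a : ℝ → ℂ} {c : ℝ → ℝ} (hb : Continuous b) (ha : Continuous a) (hc : Continuous c)
    (hpos : ∀ t, 0 < c t) : ∃ θ : ℝ,
    ∫ t in (0:ℝ)..(2 * π), log (max (max ‖b t‖ ‖a t‖) (c t)) ≤
      ∫ t in (0:ℝ)..(2 * π), log (max ‖b t + circleMap 0 1 θ * a t‖ (c t)) := by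
  by_contra hcon
  push Not at hcon
  set I := ∫ t in (0:ℝ)..(2 * π), log (max (max ‖b t‖ ‖a t‖) (c t)) with hI
  have hcm : Continuous (circleMap 0 1) := continuous_circleMap 0 1
  have hF : Continuous (Function.uncurry (fun θ t : ℝ => log (max ‖b t + circleMap 0 1 θ * a t‖ (c t)))) := by
    apply cont_logmax (f := fun p : ℝ × ℝ => ‖b p.2 + circleMap 0 1 p.1 * a p.2‖) (g := fun p : ℝ × ℝ => c p.2)
    · fun_prop
    · fun_prop
    · intro p; exact hpos _
  have hG : Continuous (fun θ : ℝ => ∫ t in (0:ℝ)..(2 * π), log (max ‖b t + circleMap 0 1 θ * a t‖ (c t))) :=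
    intervalIntegral.continuous_parametric_intervalIntegral_of_continuous' hF _ _
  have hp := intervalIntegral.intervalIntegral_pos_of_pos
    (f := fun θ : ℝ => I - ∫ t in (0:ℝ)..(2 * π), log (max ‖b t + circleMap 0 1 θ * a t‖ (c t)))
    ((continuous_const.sub hG).intervalIntegrable 0 (2 * π)) (fun θ => sub_pos.2 (hcon θ)) two_pi_pos
  rw [intervalIntegral.integral_sub (continuous_const.intervalIntegrable _ _) (hG.intervalIntegrable _ _),
    intervalIntegral.integral_const, intervalIntegral_intervalIntegral_swap] at hp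
  · have hle : ∫ t in (0:ℝ)..(2 * π), 2 * π * log (max (max ‖b t‖ ‖a t‖) (c t)) ≤
        ∫ t in (0:ℝ)..(2 * π), ∫ θ in (0:ℝ)..(2 * π), log (max ‖b t + circleMap 0 1 θ * a t‖ (c t)) := by
      apply intervalIntegral.integral_mono_on (by positivity)
      · exact (continuous_const.mul (cont_logmax (hb.norm.max ha.norm) hc hpos)).intervalIntegrable _ _
      · apply Continuous.intervalIntegrable
        apply intervalIntegral.continuous_parametric_intervalIntegral_of_continuous'
          (f := fun t θ : ℝ => log (max ‖b t + circleMap 0 1 θ * a t‖ (c t)))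
        apply cont_logmax (f := fun p : ℝ × ℝ => ‖b p.1 + circleMap 0 1 p.2 * a p.1‖) (g := fun p : ℝ × ℝ => c p.1)
        · fun_prop
        · fun_prop
        · intro p; exact hpos _
      · intro t _
        exact P2 (a t) (b t) (hpos t)
    rw [intervalIntegral.integral_const_mul] at hle
    simp only [sub_zero, smul_eq_mul] at hp
    linarith
  · exact (hF.continuousOn.integrableOn_compact (isCompact_uIcc.prod isCompact_uIcc)).mono_set
      (Set.prod_mono Set.uIoc_subset_uIcc Set.uIoc_subset_uIcc)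

/-- choosing phases one at a time. -/
lemma claim {b : ℝ → ℂ} {a : ℕ → ℝ → ℂ} (hb : Continuous b) (ha : ∀ j, Continuous (a j))
    {m : ℝ → ℝ} (hm : Continuous m) (k : ℕ) : ∀ {c : ℝ → ℝ}, Continuous c → (∀ t, 0 < c t) →
    (∀ t, exp (m t) ≤ max ‖b t‖ (c t) ∨ ∃ j < k, exp (m t) ≤ ‖a j t‖) →
    ∃ ε : ℕ → ℂ, (∀ j, ‖ε j‖ = 1) ∧ ∫ t in (0:ℝ)..(2 * π), m t ≤
      ∫ t in (0:ℝ)..(2 * π), log (max ‖b t + ∑ j ∈ Finset.range k, ε j * a j t‖ (c t)) := by
  induction k with
  | zero =>
    intro c hc hpos h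
    refine ⟨fun _ => 1, by simp, ?_⟩
    simp only [Finset.range_zero, Finset.sum_empty, add_zero]
    apply intervalIntegral.integral_mono_on (by positivity)
    · exact hm.intervalIntegrable _ _
    · exact (cont_logmax hb.norm hc hpos).intervalIntegrable _ _
    · intro t _
      rcases h t with h | ⟨j, hj, _⟩
      · rw [← log_exp (m t)]
        exact log_le_log (exp_pos _) h
      · omega
  | succ k ih =>
    intro c hc hpos h
    obtain ⟨ε, hε, hI⟩ := ih (c := fun t => max (c t) ‖a k t‖) (hc.max (ha k).norm)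
      (fun t => lt_of_lt_of_le (hpos t) (le_max_left _ _)) (by
        intro t
        rcases h t with h' | ⟨j, hj, h'⟩
        · left
          refine h'.trans (max_le_max le_rfl (le_max_left _ _))
        · rcases Nat.lt_succ_iff_lt_or_eq.1 hj with hj | hj
          · right; exact ⟨j, hj, h'⟩
          · left; subst hj; exact h'.trans ((le_max_right _ _).trans (le_max_right _ _)))
    obtain ⟨θ, hθ⟩ := step (b := fun t => b t + ∑ j ∈ Finset.range k, ε j * a j t) (a := a k)
      (hb.add (continuous_finsetSum _ (fun j _ => continuous_const.mul (ha j)))) (ha k) hc hpos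
    refine ⟨Function.update ε k (circleMap 0 1 θ), ?_, ?_⟩
    · intro j
      by_cases hj : j = k
      · subst hj; simp
      · rw [Function.update_of_ne hj]; exact hε j
    · have hsum : ∀ t, ∑ j ∈ Finset.range (k+1), (Function.update ε k (circleMap 0 1 θ)) j * a j t =
          ∑ j ∈ Finset.range k, ε j * a j t + circleMap 0 1 θ * a k t := by
        intro t
        rw [Finset.sum_range_succ, Function.update_self]
        congr 1
        apply Finset.sum_congr rfl
        intro j hj
        rw [Function.update_of_ne (Finset.mem_range.1 hj).ne]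
      simp_rw [hsum, ← add_assoc]
      refine hI.trans (le_trans (le_of_eq ?_) hθ)
      congr 1
      ext t
      rw [max_comm (c t) ‖a k t‖, max_assoc]


/-- the point `1 - e^{it}`. -/
noncomputable def zz (t : ℝ) : ℂ := 1 - circleMap 0 1 t

lemma zz_cont : Continuous zz := by
  have := continuous_circleMap 0 1
  unfold zz; fun_prop

/-- the polynomial `X^n + ∑_{j<n} ε_j C(n,j) X^j`. -/
noncomputable def pe (n : ℕ) (ε : ℕ → ℂ) : ℂ[X] :=
  X ^ n + ∑ j ∈ Finset.range n, C (ε j * (n.choose j : ℂ)) * X ^ j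

noncomputable def W (n : ℕ) (ε : ℕ → ℂ) (t : ℝ) : ℂ :=
  zz t ^ n + ∑ j ∈ Finset.range n, ε j * ((n.choose j : ℂ) * zz t ^ j)

lemma eval_pe (n : ℕ) (ε : ℕ → ℂ) (t : ℝ) : (pe n ε).eval (zz t) = W n ε t := by
  unfold pe W
  simp only [eval_add, eval_pow, eval_X, eval_finsetSum, eval_mul, eval_C]
  congr 1
  apply Finset.sum_congr rfl
  intro j _
  ring

noncomputable def mm (n : ℕ) (t : ℝ) : ℝ := n * log (1 + ‖zz t‖) - log (n + 1)

lemma mm_cont (n : ℕ) : Continuous (mm n) := by
  unfold mm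
  apply Continuous.sub _ continuous_const
  apply continuous_const.mul
  apply Continuous.log (continuous_const.add zz_cont.norm)
  intro t
  exact (by positivity : (0:ℝ) < 1 + ‖zz t‖).ne'

lemma mm_le (n : ℕ) (t : ℝ) : exp (mm n t) ≤ ‖zz t ^ n‖ ∨ ∃ j < n, exp (mm n t) ≤ ‖(n.choose j : ℂ) * zz t ^ j‖ := by
  have he : exp (mm n t) = (1 + ‖zz t‖) ^ n / (n + 1) := by
    unfold mm
    rw [exp_sub, exp_log (by positivity), mul_comm, exp_mul, exp_log (by positivity), rpow_natCast]
  have hs : ∑ j ∈ Finset.range (n+1), (1 + ‖zz t‖) ^ n / (n + 1) ≤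
      ∑ j ∈ Finset.range (n+1), (n.choose j : ℝ) * ‖zz t‖ ^ j := by
    rw [Finset.sum_const, Finset.card_range, nsmul_eq_mul]
    push_cast
    rw [mul_div_cancel₀ _ (by positivity), add_comm 1 ‖zz t‖, add_pow]
    apply le_of_eq
    apply Finset.sum_congr rfl
    intro j _
    simp; ring
  obtain ⟨j, hj, hle⟩ := Finset.exists_le_of_sum_le (Finset.nonempty_range_iff.2 (by omega)) hs
  rw [he]
  rcases Nat.lt_succ_iff_lt_or_eq.1 (Finset.mem_range.1 hj) with h | h
  · right
    refine ⟨j, h, ?_⟩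
    rw [norm_mul, norm_pow, Complex.norm_natCast]
    exact hle
  · left
    subst h
    rw [norm_pow]
    simpa using hle

lemma W_cont (n : ℕ) : Continuous (fun p : (ℕ → ℂ) × ℝ => W n p.1 p.2) := by
  unfold W
  have := zz_cont
  apply Continuous.add
  · fun_prop
  · apply continuous_finsetSum
    intro j _
    have h1 : Continuous (fun p : (ℕ → ℂ) × ℝ => p.1 j) := (continuous_apply j).comp continuous_fst
    fun_prop

noncomputable def GG (n k : ℕ) (ε : ℕ → ℂ) : ℝ :=
  ∫ t in (0:ℝ)..(2 * π), log (max ‖W n ε t‖ (1 / ((k:ℝ) + 1)))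

lemma GG_cont (n k : ℕ) : Continuous (GG n k) := by
  unfold GG
  apply intervalIntegral.continuous_parametric_intervalIntegral_of_continuous'
    (f := fun (ε : ℕ → ℂ) (t : ℝ) => log (max ‖W n ε t‖ (1 / ((k:ℝ) + 1))))
  exact cont_logmax (f := fun p : (ℕ → ℂ) × ℝ => ‖W n p.1 p.2‖) (W_cont n).norm continuous_const
    (fun _ => by positivity)

lemma exists_eps (n : ℕ) : ∃ ε : ℕ → ℂ, (∀ j, ‖ε j‖ = 1) ∧
    ∀ k : ℕ, ∫ t in (0:ℝ)..(2 * π), mm n t ≤ GG n k ε := by
  set A := ∫ t in (0:ℝ)..(2 * π), mm n t with hA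
  let P : Set (ℕ → ℂ) := Set.univ.pi (fun _ => Metric.sphere (0:ℂ) 1)
  have hP : IsCompact P := isCompact_univ_pi (fun _ => isCompact_sphere 0 1)
  have hcl : ∀ k, IsClosed (P ∩ {ε | A ≤ GG n k ε}) := fun k =>
    hP.isClosed.inter (isClosed_le continuous_const (GG_cont n k))
  obtain ⟨ε, hε⟩ := IsCompact.nonempty_iInter_of_sequence_nonempty_isCompact_isClosed
    (fun k => P ∩ {ε | A ≤ GG n k ε}) (by
      intro k ε hε
      refine ⟨hε.1, ?_⟩
      have h2 : A ≤ GG n (k+1) ε := hε.2
      refine h2.trans ?_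
      unfold GG
      have hWc : Continuous (fun t => ‖W n ε t‖) :=
        ((W_cont n).comp (continuous_const.prodMk continuous_id)).norm
      apply intervalIntegral.integral_mono_on (by positivity)
      · exact (cont_logmax hWc continuous_const (fun _ => by positivity)).intervalIntegrable _ _
      · exact (cont_logmax hWc continuous_const (fun _ => by positivity)).intervalIntegrable _ _
      · intro t _
        apply log_le_log (lt_of_lt_of_le (by positivity) (le_max_right _ _))
        apply max_le_max le_rfl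
        apply one_div_le_one_div_of_le (by positivity)
        push_cast; linarith)
    (by
      intro k
      obtain ⟨ε, h1, h2⟩ := claim (b := fun t => zz t ^ n) (a := fun j t => (n.choose j : ℂ) * zz t ^ j)
        (by have := zz_cont; fun_prop) (by intro j; have := zz_cont; fun_prop) (mm_cont n) n
        (c := fun _ => 1 / ((k:ℝ) + 1)) continuous_const (fun _ => by positivity) (by
          intro t
          rcases mm_le n t with h | h
          · left; exact h.trans (le_max_left _ _)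
          · right; exact h)
      refine ⟨ε, ?_, h2⟩
      intro j _
      simpa using h1 j)
    ((hP.inter_right (isClosed_le continuous_const (GG_cont n 0))))
    hcl
  rw [Set.mem_iInter] at hε
  refine ⟨ε, ?_, fun k => (hε k).2⟩
  intro j
  have := (hε 0).1 j (Set.mem_univ _)
  simpa using this

noncomputable def PP (n : ℕ) (ε : ℕ → ℂ) : ℂ[X] := (pe n ε).comp (C 1 - X)

lemma eval_PP (n : ℕ) (ε : ℕ → ℂ) (t : ℝ) : (PP n ε).eval (circleMap 0 1 t) = W n ε t := by
  unfold PP
  rw [eval_comp, ← eval_pe]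
  simp [zz]

lemma pe_coeff (n : ℕ) (ε : ℕ → ℂ) (j : ℕ) :
    (pe n ε).coeff j = if j = n then 1 else if j < n then ε j * (n.choose j : ℂ) else 0 := by
  unfold pe
  rw [coeff_add, coeff_X_pow, finsetSum_coeff]
  simp only [coeff_C_mul_X_pow]
  rw [Finset.sum_ite_eq]
  simp only [Finset.mem_range]
  by_cases h : j = n
  · subst h; simp
  · simp [h]

lemma pe_natDegree_le (n : ℕ) (ε : ℕ → ℂ) : (pe n ε).natDegree ≤ n := by
  rw [natDegree_le_iff_coeff_eq_zero]
  intro N hN
  rw [pe_coeff, if_neg (by omega), if_neg (by omega)]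

lemma pe_monic (n : ℕ) (ε : ℕ → ℂ) : (pe n ε).Monic :=
  monic_of_natDegree_le_of_coeff_eq_one n (pe_natDegree_le n ε) (by rw [pe_coeff]; simp)

lemma pe_natDegree (n : ℕ) (ε : ℕ → ℂ) : (pe n ε).natDegree = n := by
  apply le_antisymm (pe_natDegree_le n ε)
  apply le_natDegree_of_ne_zero
  rw [pe_coeff]; simp

/-- Mahler measure of `p(ζ - X)` in terms of the roots of `p`. -/
lemma mahler_roots {p : ℂ[X]} (hp : p.Monic) (ζ : ℂ) :
    (p.comp (C ζ - X)).mahlerMeasure = (p.roots.map (fun z => max 1 ‖ζ - z‖)).prod := by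
  have h := (IsAlgClosed.splits p).eq_prod_roots_of_monic hp
  conv_lhs => rw [h]
  generalize p.roots = s
  induction s using Multiset.induction_on with
  | empty => simp
  | cons a s ih =>
    rw [Multiset.map_cons, Multiset.prod_cons, mul_comp, mahlerMeasure_mul, ih, Multiset.map_cons,
      Multiset.prod_cons]
    congr 1
    have : (X - C a).comp (C ζ - X) = C (-1) * X + C (ζ - a) := by
      simp; ring
    rw [this, mahlerMeasure_C_mul_X_add_C (by norm_num)]
    simp


lemma PP_ne_zero (n : ℕ) (ε : ℕ → ℂ) : PP n ε ≠ 0 := by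
  intro h
  have h1 := mahler_roots (pe_monic n ε) 1
  have h2 : ((pe n ε).comp (C 1 - X)) = 0 := h
  rw [h2, mahlerMeasure_zero] at h1
  have h3 : 0 < ((pe n ε).roots.map (fun z => max 1 ‖1 - z‖)).prod := by
    apply Multiset.prod_pos
    intro x hx
    obtain ⟨z, -, rfl⟩ := Multiset.mem_map.1 hx
    exact lt_of_lt_of_le one_pos (le_max_left _ _)
  linarith

lemma W_ae (n : ℕ) (ε : ℕ → ℂ) : ∀ᵐ t : ℝ, W n ε t ≠ 0 := by
  have hc : (circleMap 0 1 ⁻¹' ((PP n ε).roots.toFinset : Set ℂ)).Countable :=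
    (Finset.countable_toSet _).preimage_circleMap 0 one_ne_zero
  filter_upwards [hc.ae_notMem volume] with t ht h0
  apply ht
  rw [Set.mem_preimage, Finset.mem_coe, Multiset.mem_toFinset, mem_roots (PP_ne_zero n ε), IsRoot.def,
    eval_PP, h0]

lemma lim_GG (n : ℕ) (ε : ℕ → ℂ) : Tendsto (fun k => GG n k ε) atTop
    (𝓝 (∫ t in (0:ℝ)..(2 * π), log ‖(PP n ε).eval (circleMap 0 1 t)‖)) := by
  unfold GG
  have hWc : Continuous (fun t => ‖W n ε t‖) :=
    ((W_cont n).comp (continuous_const.prodMk continuous_id)).norm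
  apply intervalIntegral.tendsto_integral_filter_of_dominated_convergence
    (fun t => |log ‖(PP n ε).eval (circleMap 0 1 t)‖|)
  · apply Eventually.of_forall
    intro k
    exact (cont_logmax hWc continuous_const (fun _ => by positivity)).aestronglyMeasurable
  · apply Eventually.of_forall
    intro k
    filter_upwards [W_ae n ε] with t ht _
    rw [eval_PP, Real.norm_eq_abs]
    have hpos : 0 < ‖W n ε t‖ := norm_pos_iff.2 ht
    have hk : (0:ℝ) < 1 / ((k:ℝ) + 1) := by positivity
    have hk1 : 1 / ((k:ℝ) + 1) ≤ 1 := by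
      rw [div_le_one (by positivity)]; linarith [Nat.cast_nonneg (α := ℝ) k]
    rcases le_total (1 / ((k:ℝ) + 1)) ‖W n ε t‖ with h | h
    · rw [max_eq_left h]
    · rw [max_eq_right h]
      have h1 : log (1 / ((k:ℝ) + 1)) ≤ 0 := log_nonpos hk.le hk1
      have h2 : log ‖W n ε t‖ ≤ log (1 / ((k:ℝ) + 1)) := log_le_log hpos h
      rw [abs_of_nonpos h1, abs_of_nonpos (h2.trans h1)]
      linarith
  · exact (intervalIntegrable_mahlerMeasure (PP n ε)).abs
  · filter_upwards [W_ae n ε] with t ht _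
    rw [eval_PP]
    have hpos : 0 < ‖W n ε t‖ := norm_pos_iff.2 ht
    have h1 : Tendsto (fun k : ℕ => 1 / ((k:ℝ) + 1)) atTop (𝓝 0) := tendsto_one_div_add_atTop_nhds_zero_nat
    apply tendsto_const_nhds.congr'
    filter_upwards [h1.eventually (gt_mem_nhds hpos)] with k hk
    rw [max_eq_left hk.le]

/-- `K = M(1 + |1 + x|)`. -/
noncomputable def K : ℝ := exp ((2 * π)⁻¹ * ∫ t in (0:ℝ)..(2 * π), log (1 + ‖1 + Complex.exp (t * Complex.I)‖))

lemma circleMap_eq (t : ℝ) : circleMap 0 1 t = Complex.exp (t * Complex.I) := by simp [circleMap]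

lemma log_K : 2 * π * log K = ∫ t in (0:ℝ)..(2 * π), log (1 + ‖1 + circleMap 0 1 t‖) := by
  unfold K
  rw [log_exp]
  simp_rw [circleMap_eq]
  rw [← mul_assoc, mul_inv_cancel₀ two_pi_pos.ne', one_mul]

/-- rotation invariance -/
lemma rot {ζ : ℂ} (hζ : ‖ζ‖ = 1) : ∫ t in (0:ℝ)..(2 * π), log (1 + ‖ζ - circleMap 0 1 t‖) = 2 * π * log K := by
  rw [log_K]
  obtain ⟨α, hα⟩ : ∃ α : ℝ, circleMap 0 1 α = -ζ := by
    refine ⟨(-ζ).arg, ?_⟩
    rw [circleMap_eq]
    have := Complex.norm_mul_exp_arg_mul_I (-ζ)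
    rwa [norm_neg, hζ, Complex.ofReal_one, one_mul] at this
  set g : ℝ → ℝ := fun t => log (1 + ‖1 + circleMap 0 1 t‖) with hg
  have hper : Function.Periodic g (2 * π) := by
    intro t
    simp only [hg]
    rw [periodic_circleMap 0 1 t]
  have h1 : ∀ t, log (1 + ‖ζ - circleMap 0 1 t‖) = g (t - α) := by
    intro t
    simp only [hg]
    have e1 : ζ - circleMap 0 1 t = circleMap 0 1 α * (-(1 + circleMap 0 1 (t - α))) := by
      have e2 : circleMap 0 1 α * circleMap 0 1 (t - α) = circleMap 0 1 t := by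
        rw [circleMap_eq, circleMap_eq, circleMap_eq, ← Complex.exp_add]
        congr 1
        push_cast; ring
      rw [mul_neg, mul_add, e2, hα]; ring
    rw [e1, norm_mul, hα, norm_neg, hζ, one_mul, norm_neg]
  simp_rw [h1]
  rw [intervalIntegral.integral_comp_sub_right (fun t => g t) α]
  have h2 := hper.intervalIntegral_add_eq (0 - α) 0
  rw [zero_add] at h2
  rw [← h2]
  congr 1
  ring

/-- Bombieri supremum norm `[p] = max_j |a_j| / C(n,j)`, `n = deg p`. -/
noncomputable def bomb (p : ℂ[X]) : ℝ :=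
  sSup {r : ℝ | ∃ j : ℕ, j ≤ p.natDegree ∧ r = ‖p.coeff j‖ / (p.natDegree.choose j : ℝ)}

/-- `‖q‖ = max_{|z| ≤ 1} |q(z)|`. -/
noncomputable def supNorm (q : ℂ[X]) : ℝ := sSup {r : ℝ | ∃ z : ℂ, ‖z‖ ≤ 1 ∧ r = ‖q.eval z‖}

/-- `S_n`. -/
noncomputable def S (n : ℕ) : ℝ :=
  sSup {r : ℝ | ∃ p q : ℂ[X], p.Monic ∧ p.natDegree = n ∧ q.Monic ∧ q ∣ p ∧ r = supNorm q / bomb p}

lemma bomb_bdd (p : ℂ[X]) :
    BddAbove {r : ℝ | ∃ j : ℕ, j ≤ p.natDegree ∧ r = ‖p.coeff j‖ / (p.natDegree.choose j : ℝ)} := by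
  have : {r : ℝ | ∃ j : ℕ, j ≤ p.natDegree ∧ r = ‖p.coeff j‖ / (p.natDegree.choose j : ℝ)} =
      (fun j => ‖p.coeff j‖ / (p.natDegree.choose j : ℝ)) '' (Set.Iic p.natDegree) := by
    ext r
    simp only [Set.mem_ofPred_eq, Set.mem_image, Set.mem_Iic]
    constructor
    · rintro ⟨j, h, rfl⟩; exact ⟨j, h, rfl⟩
    · rintro ⟨j, h, rfl⟩; exact ⟨j, h, rfl⟩
  rw [this]
  exact ((Set.finite_Iic _).image _).bddAbove

lemma coeff_le (p : ℂ[X]) {j : ℕ} (hj : j ≤ p.natDegree) :
    ‖p.coeff j‖ ≤ bomb p * (p.natDegree.choose j : ℝ) := by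
  have h := le_csSup (bomb_bdd p) ⟨j, hj, rfl⟩
  have hpos : (0:ℝ) < (p.natDegree.choose j : ℝ) := by exact_mod_cast Nat.choose_pos hj
  rwa [div_le_iff₀ hpos] at h

lemma one_le_bomb {p : ℂ[X]} (hp : p.Monic) : 1 ≤ bomb p := by
  have h := coeff_le p (le_refl p.natDegree)
  rw [Nat.choose_self, hp.coeff_natDegree] at h
  simpa using h

lemma bomb_pe (n : ℕ) {ε : ℕ → ℂ} (hε : ∀ j, ‖ε j‖ = 1) : bomb (pe n ε) = 1 := by
  apply le_antisymm _ (one_le_bomb (pe_monic n ε))
  apply Real.sSup_le _ zero_le_one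
  rintro r ⟨j, hj, rfl⟩
  rw [pe_natDegree] at hj ⊢
  have hpos : (0:ℝ) < (n.choose j : ℝ) := by exact_mod_cast Nat.choose_pos hj
  rw [div_le_one hpos, pe_coeff]
  split_ifs with h1 h2
  · subst h1; simp
  · rw [norm_mul, hε, one_mul, Complex.norm_natCast]
  · rw [norm_zero]; exact hpos.le

lemma supNorm_bdd (q : ℂ[X]) : BddAbove {r : ℝ | ∃ z : ℂ, ‖z‖ ≤ 1 ∧ r = ‖q.eval z‖} := by
  have : {r : ℝ | ∃ z : ℂ, ‖z‖ ≤ 1 ∧ r = ‖q.eval z‖} = (fun z => ‖q.eval z‖) '' (Metric.closedBall 0 1) := by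
    ext r
    simp only [Set.mem_ofPred_eq, Set.mem_image, Metric.mem_closedBall, dist_zero_right]
    constructor
    · rintro ⟨j, h, rfl⟩; exact ⟨j, h, rfl⟩
    · rintro ⟨j, h, rfl⟩; exact ⟨j, h, rfl⟩
  rw [this]
  exact (isCompact_closedBall 0 1).bddAbove_image (q.continuous.norm.continuousOn)

/-- pointwise bound. -/
lemma eval_le (p : ℂ[X]) (w : ℂ) : ‖p.eval w‖ ≤ bomb p * (1 + ‖w‖) ^ p.natDegree := by
  rw [eval_eq_sum_range, add_comm 1 ‖w‖, add_pow, Finset.mul_sum]
  refine (norm_sum_le _ _).trans (Finset.sum_le_sum (fun j hj => ?_))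
  rw [norm_mul, norm_pow]
  have h := coeff_le p (Nat.lt_succ_iff.1 (Finset.mem_range.1 hj))
  have h2 := mul_le_mul_of_nonneg_right h (by positivity : 0 ≤ ‖w‖ ^ j)
  refine h2.trans (le_of_eq ?_)
  simp; ring

lemma K_pos : 0 < K := exp_pos _

lemma mahler_le {p : ℂ[X]} (hp : p.Monic) {ζ : ℂ} (hζ : ‖ζ‖ = 1) :
    (p.comp (C ζ - X)).mahlerMeasure ≤ bomb p * K ^ p.natDegree := by
  have hb := one_le_bomb hp
  by_cases h0 : p.comp (C ζ - X) = 0
  · rw [h0, mahlerMeasure_zero]
    have := K_pos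
    positivity
  rw [mahlerMeasure_def_of_ne_zero h0]
  have hle : ∫ (x : ℝ) in (0)..(2 * π), log ‖eval (circleMap 0 1 x) (p.comp (C ζ - X))‖ ≤
      ∫ (x : ℝ) in (0)..(2 * π), (log (bomb p) + p.natDegree * log (1 + ‖ζ - circleMap 0 1 x‖)) := by
    apply intervalIntegral.integral_mono_on (by positivity)
    · exact intervalIntegrable_mahlerMeasure _
    · apply Continuous.intervalIntegrable
      apply continuous_const.add
      apply continuous_const.mul
      apply Continuous.log
      · have := continuous_circleMap 0 1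
        fun_prop
      · intro x
        exact (by positivity : (0:ℝ) < 1 + ‖ζ - circleMap 0 1 x‖).ne'
    · intro x _
      rw [eval_comp]
      simp only [eval_sub, eval_C, eval_X]
      have h1 := eval_le p (ζ - circleMap 0 1 x)
      have h2 : log (bomb p) + p.natDegree * log (1 + ‖ζ - circleMap 0 1 x‖) =
          log (bomb p * (1 + ‖ζ - circleMap 0 1 x‖) ^ p.natDegree) := by
        rw [log_mul (by linarith) (by positivity), log_pow]
      rw [h2]
      rcases (norm_nonneg (p.eval (ζ - circleMap 0 1 x))).eq_or_lt with h3 | h3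
      · rw [← h3, log_zero]
        apply log_nonneg
        have : (1:ℝ) ≤ (1 + ‖ζ - circleMap 0 1 x‖) ^ p.natDegree :=
          one_le_pow₀ (by linarith [norm_nonneg (ζ - circleMap 0 1 x)])
        nlinarith
      · exact log_le_log h3 h1
  have hcont : Continuous (fun x : ℝ => log (1 + ‖ζ - circleMap 0 1 x‖)) := by
    apply Continuous.log
    · have := continuous_circleMap 0 1
      fun_prop
    · intro x
      exact (by positivity : (0:ℝ) < 1 + ‖ζ - circleMap 0 1 x‖).ne'
  rw [intervalIntegral.integral_add (continuous_const.intervalIntegrable _ _)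
    ((hcont.intervalIntegrable _ _).const_mul _), intervalIntegral.integral_const,
    intervalIntegral.integral_const_mul, rot hζ] at hle
  simp only [sub_zero, smul_eq_mul] at hle
  have h4 : (2 * π)⁻¹ * ∫ (x : ℝ) in (0)..(2 * π), log ‖eval (circleMap 0 1 x) (p.comp (C ζ - X))‖ ≤
      log (bomb p) + p.natDegree * log K := by
    rw [inv_mul_le_iff₀ two_pi_pos]
    linarith
  refine (exp_le_exp.2 h4).trans (le_of_eq ?_)
  rw [exp_add, exp_log (by linarith), mul_comm (p.natDegree : ℝ), exp_mul, exp_log K_pos, rpow_natCast]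


lemma one_le_prod (t : Multiset ℂ) (ζ : ℂ) : 1 ≤ (t.map (fun z => max 1 ‖ζ - z‖)).prod := by
  induction t using Multiset.induction_on with
  | empty => simp
  | cons a s ih =>
    rw [Multiset.map_cons, Multiset.prod_cons]
    have h1 : (1:ℝ) ≤ max 1 ‖ζ - a‖ := le_max_left _ _
    nlinarith

lemma eval_le_prod (s : Multiset ℂ) (ζ : ℂ) :
    ‖((s.map (fun z => X - C z)).prod).eval ζ‖ ≤ (s.map (fun z => max 1 ‖ζ - z‖)).prod := by
  induction s using Multiset.induction_on with
  | empty => simp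
  | cons a s ih =>
    rw [Multiset.map_cons, Multiset.prod_cons, Multiset.map_cons, Multiset.prod_cons, eval_mul, norm_mul]
    apply mul_le_mul _ ih (norm_nonneg _) (le_trans zero_le_one (le_max_left _ _))
    simp

lemma eval_eq_prod (s : Multiset ℂ) :
    ‖(((s.filter (fun z => 1 ≤ ‖1 - z‖)).map (fun z => X - C z)).prod).eval 1‖ =
      (s.map (fun z => max 1 ‖1 - z‖)).prod := by
  induction s using Multiset.induction_on with
  | empty => simp
  | cons a s ih =>
    by_cases h : 1 ≤ ‖1 - a‖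
    · rw [Multiset.filter_cons_of_pos (p := fun z : ℂ => 1 ≤ ‖1 - z‖) _ h, Multiset.map_cons, Multiset.prod_cons, eval_mul, norm_mul, ih,
        Multiset.map_cons, Multiset.prod_cons, max_eq_right h]
      simp
    · rw [Multiset.filter_cons_of_neg (p := fun z : ℂ => 1 ≤ ‖1 - z‖) _ h, ih, Multiset.map_cons, Multiset.prod_cons,
        max_eq_left (not_le.1 h).le, one_mul]

lemma q_le {p q : ℂ[X]} (hp : p.Monic) (hq : q.Monic) (hqp : q ∣ p) {ζ : ℂ} (hζ : ‖ζ‖ = 1) :
    ‖q.eval ζ‖ ≤ bomb p * K ^ p.natDegree := by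
  have h1 := (IsAlgClosed.splits q).eq_prod_roots_of_monic hq
  have h2 : ‖q.eval ζ‖ ≤ (q.roots.map (fun z => max 1 ‖ζ - z‖)).prod := by
    conv_lhs => rw [h1]
    exact eval_le_prod _ _
  obtain ⟨t, ht⟩ := Multiset.le_iff_exists_add.1 (roots.le_of_dvd hp.ne_zero hqp)
  have h3 : (q.roots.map (fun z => max 1 ‖ζ - z‖)).prod ≤ (p.roots.map (fun z => max 1 ‖ζ - z‖)).prod := by
    rw [ht, Multiset.map_add, Multiset.prod_add]
    have h4 := one_le_prod t ζ
    have h5 := one_le_prod q.roots ζ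
    nlinarith
  rw [← mahler_roots hp] at h3
  exact h2.trans (h3.trans (mahler_le hp hζ))

lemma supNorm_le {p q : ℂ[X]} (hp : p.Monic) (hq : q.Monic) (hqp : q ∣ p) :
    supNorm q ≤ bomb p * K ^ p.natDegree := by
  have hnn : 0 ≤ bomb p * K ^ p.natDegree := by
    have := one_le_bomb hp
    have := K_pos
    positivity
  apply Real.sSup_le _ hnn
  rintro r ⟨z, hz, rfl⟩
  apply Complex.norm_le_of_forall_mem_frontier_norm_le (U := Metric.ball (0:ℂ) 1) Metric.isBounded_ball
    q.differentiable.diffContOnCl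
  · intro w hw
    rw [frontier_ball (0:ℂ) one_ne_zero] at hw
    exact q_le hp hq hqp (by simpa using hw)
  · rw [closure_ball (0:ℂ) one_ne_zero]
    simpa using hz

lemma S_bdd (n : ℕ) : ∀ r ∈ {r : ℝ | ∃ p q : ℂ[X], p.Monic ∧ p.natDegree = n ∧ q.Monic ∧ q ∣ p ∧
    r = supNorm q / bomb p}, r ≤ K ^ n := by
  rintro r ⟨p, q, hp, rfl, hq, hqp, rfl⟩
  have hb := one_le_bomb hp
  rw [div_le_iff₀ (by linarith), mul_comm]
  exact supNorm_le hp hq hqp

lemma S_le (n : ℕ) : S n ≤ K ^ n := Real.sSup_le (S_bdd n) (pow_nonneg K_pos.le n)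

lemma le_S (n : ℕ) : K ^ n / (n + 1) ≤ S n := by
  obtain ⟨ε, hε, hA⟩ := exists_eps n
  have h1 : ∫ t in (0:ℝ)..(2 * π), mm n t ≤
      ∫ t in (0:ℝ)..(2 * π), log ‖(PP n ε).eval (circleMap 0 1 t)‖ :=
    ge_of_tendsto' (lim_GG n ε) hA
  have h2 : ∫ t in (0:ℝ)..(2 * π), mm n t = 2 * π * (n * log K - log (n + 1)) := by
    unfold mm zz
    have hcont : Continuous (fun x : ℝ => log (1 + ‖1 - circleMap 0 1 x‖)) := by
      apply Continuous.log
      · have := continuous_circleMap 0 1
        fun_prop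
      · intro x
        exact (by positivity : (0:ℝ) < 1 + ‖1 - circleMap 0 1 x‖).ne'
    rw [intervalIntegral.integral_sub ((hcont.intervalIntegrable _ _).const_mul _)
      (continuous_const.intervalIntegrable _ _), intervalIntegral.integral_const,
      intervalIntegral.integral_const_mul, rot (by simp)]
    simp only [sub_zero, smul_eq_mul]
    ring
  have h3 : K ^ n / (n + 1) ≤ (PP n ε).mahlerMeasure := by
    rw [mahlerMeasure_def_of_ne_zero (PP_ne_zero n ε)]
    have h4 : n * log K - log (n + 1) ≤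
        (2 * π)⁻¹ * ∫ (x : ℝ) in (0)..(2 * π), log ‖eval (circleMap 0 1 x) (PP n ε)‖ := by
      rw [le_inv_mul_iff₀ two_pi_pos]
      linarith
    refine le_trans (le_of_eq ?_) (exp_le_exp.2 h4)
    rw [exp_sub, exp_log (by positivity), mul_comm (n : ℝ), exp_mul, exp_log K_pos, rpow_natCast]
  have h5 : (PP n ε).mahlerMeasure = ((pe n ε).roots.map (fun z => max 1 ‖1 - z‖)).prod :=
    mahler_roots (pe_monic n ε) 1
  set q : ℂ[X] := (((pe n ε).roots.filter (fun z => 1 ≤ ‖1 - z‖)).map (fun z => X - C z)).prod with hq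
  have h6 : ‖q.eval 1‖ = (PP n ε).mahlerMeasure := by
    rw [h5, hq]
    exact eval_eq_prod _
  have h7 : ‖q.eval 1‖ ≤ supNorm q := le_csSup (supNorm_bdd q) ⟨1, by simp, rfl⟩
  have h8 : supNorm q / bomb (pe n ε) ≤ S n := by
    apply le_csSup ⟨_, S_bdd n⟩
    refine ⟨pe n ε, q, pe_monic n ε, pe_natDegree n ε, ?_, ?_, rfl⟩
    · exact monic_multiset_prod_of_monic _ _ (fun z _ => monic_X_sub_C z)
    · have h9 := (IsAlgClosed.splits (pe n ε)).eq_prod_roots_of_monic (pe_monic n ε)
      conv_rhs => rw [h9]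
      exact Multiset.prod_dvd_prod_of_le (Multiset.map_le_map (Multiset.filter_le _ _))
  rw [bomb_pe n hε, div_one] at h8
  linarith

lemma tends : Tendsto (fun n : ℕ => (S n) ^ ((1:ℝ) / n)) atTop (𝓝 K) := by
  have h1 : Tendsto (fun n : ℕ => K / ((n:ℝ) + 1) ^ ((1:ℝ) / n)) atTop (𝓝 (K / 1)) := by
    apply Tendsto.div tendsto_const_nhds _ one_ne_zero
    have h2 := (tendsto_rpow_div_mul_add 1 1 (-1) (by norm_num)).comp
      (tendsto_atTop_add_const_right atTop (1:ℝ) (tendsto_natCast_atTop_atTop (R := ℝ)))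
    refine h2.congr (fun n => ?_)
    simp only [Function.comp]
    congr 2
    ring
  rw [div_one] at h1
  apply tendsto_of_tendsto_of_tendsto_of_le_of_le' h1 tendsto_const_nhds
  · filter_upwards [eventually_gt_atTop 0] with n hn
    have hn' : (0:ℝ) < n := by exact_mod_cast hn
    have h3 := rpow_le_rpow (by have := K_pos; positivity) (le_S n) (by positivity : (0:ℝ) ≤ 1 / n)
    refine le_trans (le_of_eq ?_) h3
    rw [div_rpow (pow_nonneg K_pos.le n) (by positivity), ← rpow_natCast, ← rpow_mul K_pos.le,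
      mul_one_div_cancel hn'.ne', rpow_one]
  · filter_upwards [eventually_gt_atTop 0] with n hn
    have hn' : (0:ℝ) < n := by exact_mod_cast hn
    have h0 : 0 ≤ S n := le_trans (by have := K_pos; positivity) (le_S n)
    have h3 := rpow_le_rpow h0 (S_le n) (by positivity : (0:ℝ) ≤ 1 / n)
    refine h3.trans (le_of_eq ?_)
    rw [← rpow_natCast, ← rpow_mul K_pos.le, mul_one_div_cancel hn'.ne', rpow_one]

/-- **Sharpness of the Bombieri-norm bound for monic factors.** For every `n`,
`K^n/(n+1) ≤ S_n ≤ K^n`; hence `S_n^{1/n} → K`, and `limsup S_n^{1/n} = K`. -/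
theorem result :
    (∀ n : ℕ, K ^ n / (n + 1) ≤ S n ∧ S n ≤ K ^ n) ∧
    Tendsto (fun n : ℕ => (S n) ^ ((1:ℝ) / n)) atTop (𝓝 K) ∧
    limsup (fun n : ℕ => (S n) ^ ((1:ℝ) / n)) atTop = K :=
  ⟨fun n => ⟨le_S n, S_le n⟩, tends, tends.limsup_eq⟩

end Pool.Agent.Results.MP_6d4084_an.BombieriSharp
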